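import Pool.Agent.V5helper52.PT.Stm

/-!
# Project PT, job CONE
-/

set_option autoImplicit false
set_option maxHeartbeats 400000

open MvPolynomial Pool.Agent.V5helper52.FW Pool.Agent.V5helper52.PT

namespace Pool.Agent.V5helper6.PT

section

variable {k : Type} [Field k] {E : ℕ} {κ σ : Type} [Fintype σ]

/-- a Fermat form at a point -/
lemma aeval_ferm {τ : Type} [Fintype τ] {F : Type} [CommRing F] [Algebra k F] (u : τ → F)
    (c : τ → k) : aeval u (Ferm E τ c) = ∑ t, algebraMap k F (c t) * u t ^ E := by
  rw [Ferm, map_sum]
  refine Finset.sum_congr rfl fun t _ => ?_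
  rw [map_mul, map_pow, aeval_X, aeval_C]

lemma hom_ferm {τ : Type} [Fintype τ] {F : Type} [CommRing F] [Algebra k F]
    (g : MvPolynomial τ k →ₐ[k] F) (c : τ → k) :
    g (Ferm E τ c) = ∑ t, algebraMap k F (c t) * g (X t) ^ E := by
  rw [Ferm, map_sum]
  refine Finset.sum_congr rfl fun t _ => ?_
  rw [map_mul, map_pow, ← algebraMap_eq, AlgHom.commutes]

/-- two homomorphisms from the Laurent polynomials -/
lemma laurent_ext {D F : Type} [CommRing D] [CommRing F] (h h' : LaurentPolynomial D →+* F)
    (hC : ∀ d, h (LaurentPolynomial.C d) = h' (LaurentPolynomial.C d))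
    (hT : h (LaurentPolynomial.T 1) = h' (LaurentPolynomial.T 1)) : h = h' := by
  refine IsLocalization.ringHom_ext (Submonoid.powers (Polynomial.X : Polynomial D)) ?_
  refine Polynomial.ringHom_ext (fun d => ?_) ?_
  · change h (Polynomial.toLaurent (Polynomial.C d)) = h' (Polynomial.toLaurent (Polynomial.C d))
    rw [Polynomial.toLaurent_C, hC]
  · change h (Polynomial.toLaurent Polynomial.X) = h' (Polynomial.toLaurent Polynomial.X)
    rw [Polynomial.toLaurent_X, hT]

theorem cone (M : κ → Option σ → k) (D : Type) [CommRing D] [Algebra k D]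
    (q : MvPolynomial σ k →ₐ[k] D)
    (hq : IsQ (sysC E (fun i => M i none) (fun i j => M i (some j))) (∏ j, X j) q) :
    IsQ (sysI E M) (∏ j, X j) (aeval fun j : Option σ => j.elim (LaurentPolynomial.T 1 :
      LaurentPolynomial D) fun j => LaurentPolynomial.T 1 * LaurentPolynomial.C (q (X j))) := by
  set u : Option σ → LaurentPolynomial D := fun j => j.elim (LaurentPolynomial.T 1)
    fun j => LaurentPolynomial.T 1 * LaurentPolynomial.C (q (X j)) with hu
  have hu0 : u none = LaurentPolynomial.T 1 := rfl
  have hu1 : ∀ j, u (some j) = LaurentPolynomial.T 1 * LaurentPolynomial.C (q (X j)) :=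
    fun _ => rfl
  have hqu : ∀ j, IsUnit (q (X j)) := by
    intro j
    have h1 := hq.unit
    rw [map_prod, IsUnit.prod_univ_iff] at h1
    exact h1 j
  have hT : IsUnit (LaurentPolynomial.T 1 : LaurentPolynomial D) := LaurentPolynomial.isUnit_T 1
  -- the system at a point
  have hsys : ∀ (F : Type) [CommRing F] [Algebra k F] (v : Option σ → F) (t : F) (w : σ → F),
      v none = t → (∀ j, v (some j) = t * w j) → ∀ i,
      ∑ j, algebraMap k F (M i j) * v j ^ E =
        t ^ E * (algebraMap k F (M i none) + ∑ j, algebraMap k F (M i (some j)) * w j ^ E) := by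
    intro F _ _ v t w h0 h1 i
    rw [Fintype.sum_option, h0, mul_add, Finset.mul_sum, mul_comm (t ^ E) (algebraMap k F _)]
    congr 1
    refine Finset.sum_congr rfl fun j _ => ?_
    rw [h1, mul_pow]
    ring
  refine ⟨?_, ?_, ?_, ?_⟩
  · -- the equations
    intro a ha
    have hle : sysI E M ≤ RingHom.ker (aeval u : MvPolynomial (Option σ) k →ₐ[k] _) := by
      rw [sysI, Ideal.span_le]
      rintro _ ⟨i, rfl⟩
      change aeval u (Ferm E (Option σ) (M i)) = 0
      rw [aeval_ferm, hsys (LaurentPolynomial D) u (LaurentPolynomial.T 1)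
        (fun j => LaurentPolynomial.C (q (X j))) hu0 hu1 i]
      have h1 : q (C (M i none) + Ferm E σ fun j => M i (some j)) = 0 :=
        hq.zero _ (Ideal.subset_span ⟨i, rfl⟩)
      rw [map_add, hom_ferm, ← algebraMap_eq, AlgHom.commutes] at h1
      have h2 : algebraMap k (LaurentPolynomial D) (M i none) +
          ∑ j, algebraMap k (LaurentPolynomial D) (M i (some j)) *
            LaurentPolynomial.C (q (X j)) ^ E = 0 := by
        have h3 := congrArg (LaurentPolynomial.C : D →+* LaurentPolynomial D) h1
        rw [map_add, map_sum, map_zero] at h3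
        rw [← h3]
        congr 1
        refine Finset.sum_congr rfl fun j _ => ?_
        rw [map_mul, map_pow]
        rfl
      rw [h2, mul_zero]
    exact hle ha
  · rw [map_prod, Fintype.prod_option, aeval_X, hu0]
    refine hT.mul ?_
    rw [IsUnit.prod_univ_iff]
    intro j
    rw [aeval_X, hu1]
    exact hT.mul ((hqu j).map _)
  · -- existence
    intro F _ _ g hg hgu
    have hgX : ∀ j, IsUnit (g (X j)) := by
      intro j
      rw [map_prod, IsUnit.prod_univ_iff] at hgu
      exact hgu j
    obtain ⟨t, ht⟩ := hgX none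
    let w : σ → F := fun j => (↑t⁻¹ : F) * g (X (some j))
    have hw : ∀ j, g (X (some j)) = t * w j := by
      intro j
      change g (X (some j)) = (t : F) * ((↑t⁻¹ : F) * g (X (some j)))
      rw [← mul_assoc, Units.mul_inv, one_mul]
    have h1 : ∀ i, algebraMap k F (M i none) +
        ∑ j, algebraMap k F (M i (some j)) * w j ^ E = 0 := by
      intro i
      have h2 : g (Ferm E (Option σ) (M i)) = 0 := hg _ (Ideal.subset_span ⟨i, rfl⟩)
      rw [hom_ferm, hsys F (fun j => g (X j)) t w ht.symm hw i] at h2
      exact ((t.isUnit.pow E).mul_right_eq_zero).1 h2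
    obtain ⟨h0, hh0⟩ := hq.lift F (aeval w) (fun a ha => by
      have hle : sysC E (fun i => M i none) (fun i j => M i (some j)) ≤
          RingHom.ker (aeval w : MvPolynomial σ k →ₐ[k] F) := by
        rw [sysC, Ideal.span_le]
        rintro _ ⟨i, rfl⟩
        change aeval w (C (M i none) + Ferm E σ fun j => M i (some j)) = 0
        rw [map_add, aeval_C, aeval_ferm]
        exact h1 i
      exact hle ha) (by
      rw [map_prod, IsUnit.prod_univ_iff]
      intro j
      rw [aeval_X]
      exact (Units.isUnit _).mul (hgX (some j)))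
    have hh0X : ∀ j, h0 (q (X j)) = w j := by
      intro j
      have := DFunLike.congr_fun hh0 (X j)
      rw [aeval_X] at this
      exact this
    let h : LaurentPolynomial D →ₐ[k] F :=
      { LaurentPolynomial.eval₂ (h0 : D →+* F) t with
        commutes' := fun r => by
          change LaurentPolynomial.eval₂ (h0 : D →+* F) t
            (algebraMap k (LaurentPolynomial D) r) = _
          rw [LaurentPolynomial.algebraMap_apply, LaurentPolynomial.eval₂_C]
          exact h0.commutes r }
    have hhC : ∀ d, h (LaurentPolynomial.C d) = h0 d := fun d =>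
      LaurentPolynomial.eval₂_C _ _ _
    have hhT : h (LaurentPolynomial.T 1) = t := by
      change LaurentPolynomial.eval₂ (h0 : D →+* F) t (LaurentPolynomial.T 1) = _
      rw [LaurentPolynomial.eval₂_T, zpow_one]
    refine ⟨h, ?_⟩
    refine MvPolynomial.algHom_ext fun j => ?_
    rw [AlgHom.comp_apply, aeval_X]
    cases j with
    | none => rw [hu0, hhT, ht]
    | some j => rw [hu1, map_mul, hhT, hhC, hh0X, hw]
  · -- uniqueness
    intro F _ _ h h' e
    have heX : ∀ j, h (u j) = h' (u j) := by
      intro j
      have := DFunLike.congr_fun e (X j)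
      rw [AlgHom.comp_apply, AlgHom.comp_apply, aeval_X] at this
      exact this
    have h1 : h (LaurentPolynomial.T 1) = h' (LaurentPolynomial.T 1) := heX none
    let cA : D →ₐ[k] LaurentPolynomial D :=
      { (LaurentPolynomial.C : D →+* LaurentPolynomial D) with
        commutes' := fun r => rfl }
    have h2 : h.comp cA = h'.comp cA := by
      apply hq.ext
      refine MvPolynomial.algHom_ext fun j => ?_
      change h (LaurentPolynomial.C (q (X j))) = h' (LaurentPolynomial.C (q (X j)))
      have h3 := heX (some j)
      rw [hu1, map_mul, map_mul, ← h1] at h3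
      exact (hT.map h).mul_right_injective h3
    apply AlgHom.coe_ringHom_injective
    exact laurent_ext _ _ (fun d => DFunLike.congr_fun h2 d) h1

end

theorem t_CONE : S_CONE := by
  intro k _ E _ κ σ _ M D _ _ q hq
  exact cone M D q hq

end Pool.Agent.V5helper6.PT
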